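import Mathlib

set_option autoImplicit false

namespace Pool.Agent.Interp

open Complex ComplexConjugate Metric Filter Topology

/-- the open unit disc -/
abbrev D : Set ℂ := ball (0 : ℂ) 1

lemma mem_D {z : ℂ} : z ∈ D ↔ ‖z‖ < 1 := by simp [D]

lemma id1 (a z : ℂ) : ‖1 - conj a * z‖ ^ 2 = ‖z - a‖ ^ 2 + (1 - ‖a‖ ^ 2) * (1 - ‖z‖ ^ 2) := by
  simp only [Complex.sq_norm, Complex.normSq_apply]
  simp
  ring

lemma den_ne {a z : ℂ} (ha : ‖a‖ < 1) (hz : ‖z‖ ≤ 1) : 1 - conj a * z ≠ 0 := by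
  intro h
  have h1 : conj a * z = 1 := (sub_eq_zero.mp h).symm
  have h2 : ‖conj a * z‖ < 1 := by
    rw [norm_mul, RCLike.norm_conj]
    nlinarith [norm_nonneg a, norm_nonneg z]
  rw [h1, norm_one] at h2
  exact lt_irrefl _ h2

lemma mob_le {a z : ℂ} (ha : ‖a‖ < 1) (hz : ‖z‖ ≤ 1) : ‖z - a‖ ≤ ‖1 - conj a * z‖ := by
  have h := id1 a z
  have h1 : 0 ≤ (1 - ‖a‖ ^ 2) * (1 - ‖z‖ ^ 2) := by
    apply mul_nonneg
    · nlinarith [norm_nonneg a]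
    · nlinarith [norm_nonneg z]
  nlinarith [norm_nonneg (z - a), norm_nonneg (1 - conj a * z)]

lemma mob_lt {a z : ℂ} (ha : ‖a‖ < 1) (hz : ‖z‖ < 1) : ‖z - a‖ < ‖1 - conj a * z‖ := by
  have h := id1 a z
  have h1 : 0 < (1 - ‖a‖ ^ 2) * (1 - ‖z‖ ^ 2) := by
    apply mul_pos
    · nlinarith [norm_nonneg a]
    · nlinarith [norm_nonneg z]
  nlinarith [norm_nonneg (z - a), norm_nonneg (1 - conj a * z)]

/-- Schwarz–Pick for maps into the open disc. -/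
lemma SP_strict (h : ℂ → ℂ) (hd : DifferentiableOn ℂ h D) (hb : ∀ z ∈ D, ‖h z‖ < 1)
    {z w : ℂ} (hz : z ∈ D) (hw : w ∈ D) :
    ‖h z - h w‖ ^ 2 * (1 - ‖z‖ ^ 2) * (1 - ‖w‖ ^ 2) ≤
      ‖z - w‖ ^ 2 * (1 - ‖h z‖ ^ 2) * (1 - ‖h w‖ ^ 2) := by
  have hz' := mem_D.mp hz
  have hw' := mem_D.mp hw
  have hbw := hb w hw
  have hphi : ∀ u ∈ D, (u + w) / (1 + conj w * u) ∈ D := by
    intro u hu
    have hu' := mem_D.mp hu
    have h1 := mob_lt (a := -w) (z := u) (by rwa [norm_neg]) hu'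
    rw [map_neg, neg_mul, sub_neg_eq_add, sub_neg_eq_add] at h1
    rw [mem_D, norm_div, div_lt_one ((norm_nonneg _).trans_lt h1)]
    exact h1
  have hden : ∀ u ∈ D, 1 + conj w * u ≠ 0 := by
    intro u hu
    have := den_ne (a := -w) (z := u) (by rwa [norm_neg]) (mem_D.mp hu).le
    rwa [map_neg, neg_mul, sub_neg_eq_add] at this
  have hG : ∀ u : ℂ, ‖u‖ < 1 → ‖(h ((u + w) / (1 + conj w * u)) - h w) /
      (1 - conj (h w) * h ((u + w) / (1 + conj w * u)))‖ ≤ ‖u‖ := by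
    intro u hu
    refine Complex.norm_le_norm_of_mapsTo_ball (R := 1)
      (f := fun u => (h ((u + w) / (1 + conj w * u)) - h w) /
      (1 - conj (h w) * h ((u + w) / (1 + conj w * u)))) ?_ ?_ ?_ hu
    · have hcomp : DifferentiableOn ℂ (fun u => h ((u + w) / (1 + conj w * u))) D := by
        refine hd.comp ?_ hphi
        refine DifferentiableOn.div (by fun_prop) (by fun_prop) hden
      refine DifferentiableOn.div (hcomp.sub_const _)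
        ((hcomp.const_mul _).const_sub _) ?_
      intro u hu
      exact den_ne hbw (hb _ (hphi u hu)).le
    · intro u hu
      rw [mem_closedBall_zero_iff, norm_div]
      exact div_le_one_of_le₀ (mob_le hbw (hb _ (hphi u hu)).le) (norm_nonneg _)
    · simp
  have hdz := den_ne hw' hz'.le
  have hu : ‖(z - w) / (1 - conj w * z)‖ < 1 := by
    have h1 := mob_lt hw' hz'
    rw [norm_div, div_lt_one ((norm_nonneg _).trans_lt h1)]
    exact h1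
  have hinv : ((z - w) / (1 - conj w * z) + w) / (1 + conj w * ((z - w) / (1 - conj w * z))) = z := by
    have h1 : 1 - conj w * w ≠ 0 := den_ne hw' hw'.le
    have e1 : (z - w) / (1 - conj w * z) + w = z * (1 - conj w * w) / (1 - conj w * z) := by
      rw [eq_div_iff hdz, add_mul, div_mul_cancel₀ _ hdz]
      ring
    have e2 : 1 + conj w * ((z - w) / (1 - conj w * z)) =
        (1 - conj w * w) / (1 - conj w * z) := by
      rw [eq_div_iff hdz, add_mul, mul_assoc, div_mul_cancel₀ _ hdz]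
      ring
    rw [e1, e2, div_div_div_cancel_right₀ hdz, mul_div_cancel_right₀ _ h1]
  have key := hG _ hu
  rw [hinv, norm_div, norm_div] at key
  have hdh := den_ne hbw (hb z hz).le
  rw [div_le_div_iff₀ (norm_pos_iff.mpr hdh) (norm_pos_iff.mpr hdz)] at key
  have k2 : (‖h z - h w‖ * ‖1 - conj w * z‖) ^ 2 ≤ (‖z - w‖ * ‖1 - conj (h w) * h z‖) ^ 2 := by
    gcongr
  rw [mul_pow, mul_pow, id1, id1] at k2
  linarith

/-- Schwarz–Pick for maps into the closed disc. -/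
lemma SP (h : ℂ → ℂ) (hd : DifferentiableOn ℂ h D) (hb : ∀ z ∈ D, ‖h z‖ ≤ 1)
    {z w : ℂ} (hz : z ∈ D) (hw : w ∈ D) :
    ‖h z - h w‖ ^ 2 * (1 - ‖z‖ ^ 2) * (1 - ‖w‖ ^ 2) ≤
      ‖z - w‖ ^ 2 * (1 - ‖h z‖ ^ 2) * (1 - ‖h w‖ ^ 2) := by
  have h1 : ∀ t : ℝ, 0 ≤ t → t < 1 →
      (t * ‖h z - h w‖) ^ 2 * (1 - ‖z‖ ^ 2) * (1 - ‖w‖ ^ 2) ≤
      ‖z - w‖ ^ 2 * (1 - (t * ‖h z‖) ^ 2) * (1 - (t * ‖h w‖) ^ 2) := by
    intro t ht0 ht1
    have hn : ∀ x : ℂ, ‖(t : ℂ) * x‖ = t * ‖x‖ := by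
      intro x
      rw [norm_mul, Complex.norm_real, Real.norm_of_nonneg ht0]
    have := SP_strict (fun x => (t : ℂ) * h x) (hd.const_mul _) (by
      intro x hx
      rw [hn]
      have := hb x hx
      nlinarith [norm_nonneg (h x)]) hz hw
    rw [← mul_sub, hn, hn, hn] at this
    exact this
  have hc : ContinuousWithinAt (fun t : ℝ =>
      ‖z - w‖ ^ 2 * (1 - (t * ‖h z‖) ^ 2) * (1 - (t * ‖h w‖) ^ 2) -
      (t * ‖h z - h w‖) ^ 2 * (1 - ‖z‖ ^ 2) * (1 - ‖w‖ ^ 2)) (Set.Iio 1) 1 := by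
    apply Continuous.continuousWithinAt
    fun_prop
  have h2 : ∀ᶠ t : ℝ in 𝓝[<] 1, 0 ≤
      ‖z - w‖ ^ 2 * (1 - (t * ‖h z‖) ^ 2) * (1 - (t * ‖h w‖) ^ 2) -
      (t * ‖h z - h w‖) ^ 2 * (1 - ‖z‖ ^ 2) * (1 - ‖w‖ ^ 2) := by
    have : Set.Ioo (0 : ℝ) 1 ∈ 𝓝[<] (1 : ℝ) := Ioo_mem_nhdsLT one_pos
    filter_upwards [this] with t ht
    have := h1 t ht.1.le ht.2
    linarith
  have h3 := ge_of_tendsto hc h2
  simp only [one_mul] at h3
  linarith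

/-- the singular inner function -/
noncomputable def S (z : ℂ) : ℂ := exp (-((1 + z) / (1 - z)))

lemma S_ne (z : ℂ) : S z ≠ 0 := exp_ne_zero _

lemma S_cont {z : ℂ} (hz : z ≠ 1) : ContinuousAt S z := by
  unfold S
  have : 1 - z ≠ 0 := sub_ne_zero.mpr hz.symm
  fun_prop (disch := assumption)

lemma S_diff : DifferentiableOn ℂ S D := by
  unfold S
  intro z hz
  have : 1 - z ≠ 0 := by
    intro h
    rw [sub_eq_zero] at h
    rw [mem_D, ← h] at hz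
    simp at hz
  have h2 : DifferentiableAt ℂ (fun z : ℂ => exp (-((1 + z) / (1 - z)))) z := by
    fun_prop (disch := assumption)
  exact h2.differentiableWithinAt

lemma S_norm (z : ℂ) (hz : z ≠ 1) : ‖S z‖ = Real.exp (-((1 - ‖z‖ ^ 2) / ‖1 - z‖ ^ 2)) := by
  unfold S
  rw [Complex.norm_exp]
  congr 1
  rw [neg_re]
  congr 1
  have h1 : 1 - z ≠ 0 := sub_ne_zero.mpr hz.symm
  have h2 : ‖1 - z‖ ^ 2 ≠ 0 := by positivity
  rw [Complex.div_re, eq_div_iff h2, Complex.sq_norm, Complex.sq_norm]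
  have h3 : Complex.normSq (1 - z) ≠ 0 := by
    rw [← Complex.sq_norm]; exact h2
  field_simp
  simp [Complex.normSq_apply]
  ring

lemma S_norm_le {z : ℂ} (hz : z ∈ D) : ‖S z‖ ≤ 1 := by
  have hz' := mem_D.mp hz
  have h1 : z ≠ 1 := by
    rintro rfl
    simp at hz'
  rw [S_norm z h1]
  apply Real.exp_le_one_iff.mpr
  have : 0 ≤ (1 - ‖z‖ ^ 2) / ‖1 - z‖ ^ 2 := by
    apply div_nonneg
    · nlinarith [norm_nonneg z]
    · positivity
  linarith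

lemma S_lower {z : ℂ} (hz : z ∈ D) : 1 - ‖S z‖ ^ 2 ≤ 2 * (1 - ‖z‖ ^ 2) / ‖1 - z‖ ^ 2 := by
  have hz' := mem_D.mp hz
  have h1 : z ≠ 1 := by
    rintro rfl
    simp at hz'
  rw [S_norm z h1, ← Real.exp_nat_mul]
  have := Real.add_one_le_exp (((2 : ℕ) : ℝ) * -((1 - ‖z‖ ^ 2) / ‖1 - z‖ ^ 2))
  push_cast at this ⊢
  have e : 2 * (1 - ‖z‖ ^ 2) / ‖1 - z‖ ^ 2 = 2 * ((1 - ‖z‖ ^ 2) / ‖1 - z‖ ^ 2) := by ring
  rw [e]
  linarith

/-- The core uniqueness argument.  If `|b| ≤ 1` and `h` is controlled by `b * S ζ` for a dense set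
of boundary points `ζ`, then `h = b * S`. -/
theorem core (h b : ℂ → ℂ) (hd : DifferentiableOn ℂ h D) (bd : DifferentiableOn ℂ b D)
    (hb1 : ∀ z ∈ D, ‖b z‖ ≤ 1)
    (hyp : ∀ z ∈ D, ∀ ζ : ℂ, ‖ζ‖ = 1 → ζ ≠ 1 →
      ‖h z - b z * S ζ‖ ^ 2 * (1 - ‖z‖ ^ 2) ≤ 2 * ‖z - ζ‖ ^ 2 / ‖1 - ζ‖ ^ 2)
    (hypS : ∀ z ∈ D, ∀ ζ : ℂ, ‖ζ‖ = 1 → ζ ≠ 1 →
      ‖S z - S ζ‖ ^ 2 * (1 - ‖z‖ ^ 2) ≤ 2 * ‖z - ζ‖ ^ 2 / ‖1 - ζ‖ ^ 2) :
    ∀ z ∈ D, h z = b z * S z := by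
  -- radial estimate
  have aux : ∀ (X : ℝ) (r : ℝ) (ζ : ℂ), 0 < r → r < 1 → ‖ζ‖ = 1 → ζ ≠ 1 → 0 ≤ X →
      X ^ 2 * (1 - ‖(r : ℂ) * ζ‖ ^ 2) ≤ 2 * ‖(r : ℂ) * ζ - ζ‖ ^ 2 / ‖1 - ζ‖ ^ 2 →
      X * ‖1 - ζ‖ ≤ √(2 * (1 - r)) := by
    intro X r ζ hr0 hr1 hζ hζ1 hX hineq
    have hn : ‖(r : ℂ) * ζ‖ = r := by
      rw [norm_mul, hζ, mul_one, Complex.norm_real, Real.norm_of_nonneg hr0.le]
    have hn2 : ‖(r : ℂ) * ζ - ζ‖ = 1 - r := by
      have : (r : ℂ) * ζ - ζ = ((r - 1 : ℝ) : ℂ) * ζ := by push_cast; ring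
      rw [this, norm_mul, hζ, mul_one, Complex.norm_real, Real.norm_eq_abs, abs_of_neg (by linarith)]
      ring
    rw [hn, hn2] at hineq
    have hpos : 0 < ‖1 - ζ‖ := norm_pos_iff.mpr (sub_ne_zero.mpr hζ1.symm)
    rw [le_div_iff₀ (by positivity)] at hineq
    apply Real.le_sqrt_of_sq_le
    have h1 : 0 < 1 - r := by linarith
    have h2 : (X * ‖1 - ζ‖) ^ 2 * (1 + r) * (1 - r) ≤ 2 * (1 - r) * (1 - r) := by nlinarith
    have h3 : (X * ‖1 - ζ‖) ^ 2 * (1 + r) ≤ 2 * (1 - r) := le_of_mul_le_mul_right h2 h1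
    nlinarith [sq_nonneg (X * ‖1 - ζ‖)]
  have hrad : ∀ r : ℝ, 0 < r → r < 1 → ∀ ζ : ℂ, ‖ζ‖ = 1 →
      ‖h (r * ζ) - b (r * ζ) * S (r * ζ)‖ * ‖1 - ζ‖ ≤ 2 * √(2 * (1 - r)) := by
    intro r hr0 hr1 ζ hζ
    by_cases hζ1 : ζ = 1
    · rw [hζ1, sub_self, norm_zero, mul_zero]; positivity
    · have hz : (r : ℂ) * ζ ∈ D := by
        rw [mem_D, norm_mul, hζ, mul_one, Complex.norm_real, Real.norm_of_nonneg hr0.le]
        exact hr1
      have a1 := aux _ r ζ hr0 hr1 hζ hζ1 (norm_nonneg _) (hyp _ hz ζ hζ hζ1)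
      have a2 := aux _ r ζ hr0 hr1 hζ hζ1 (norm_nonneg _) (hypS _ hz ζ hζ hζ1)
      have a3 : ‖h (r * ζ) - b (r * ζ) * S (r * ζ)‖ ≤
          ‖h (r * ζ) - b (r * ζ) * S ζ‖ + ‖S (r * ζ) - S ζ‖ := by
        have e : h (r * ζ) - b (r * ζ) * S (r * ζ) =
            (h (r * ζ) - b (r * ζ) * S ζ) - b (r * ζ) * (S (r * ζ) - S ζ) := by ring
        rw [e]
        refine (norm_sub_le _ _).trans ?_
        rw [norm_mul]
        have := mul_le_mul_of_nonneg_right (hb1 _ hz) (norm_nonneg (S (r * ζ) - S ζ))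
        linarith
      have a4 := mul_le_mul_of_nonneg_right a3 (norm_nonneg (1 - ζ))
      linarith
  intro z hz
  have hz' := mem_D.mp hz
  have hmax : ∀ r : ℝ, ‖z‖ < r → r < 1 →
      ‖((r : ℂ) - z) * (h z - b z * S z)‖ ≤ 2 * √(2 * (1 - r)) := by
    intro r hzr hr1
    have hr0 : 0 < r := (norm_nonneg z).trans_lt hzr
    have hsub : closedBall (0 : ℂ) r ⊆ D := closedBall_subset_ball hr1
    have hdiff : DifferentiableOn ℂ (fun y => ((r : ℂ) - y) * (h y - b y * S y)) D :=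
      ((differentiableOn_const _).sub differentiableOn_id).mul
        (hd.sub (bd.mul S_diff))
    have hdc : DiffContOnCl ℂ (fun y => ((r : ℂ) - y) * (h y - b y * S y)) (ball 0 r) := by
      apply DifferentiableOn.diffContOnCl
      rw [closure_ball _ hr0.ne']
      exact hdiff.mono hsub
    refine Complex.norm_le_of_forall_mem_frontier_norm_le (isBounded_ball (x := (0 : ℂ)) (r := r))
      hdc ?_ (z := z) (subset_closure (by rw [mem_ball_zero_iff]; exact hzr))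
    intro y hy
    rw [frontier_ball _ hr0.ne', mem_sphere_zero_iff_norm] at hy
    have hrc : (r : ℂ) ≠ 0 := by exact_mod_cast hr0.ne'
    obtain ⟨ζ, hζ⟩ : ∃ ζ, ζ = y / r := ⟨_, rfl⟩
    have hy2 : y = r * ζ := by rw [hζ]; field_simp
    have hζn : ‖ζ‖ = 1 := by
      rw [hζ, norm_div, hy, Complex.norm_real, Real.norm_of_nonneg hr0.le]
      exact div_self hr0.ne'
    have h1 := hrad r hr0 hr1 ζ hζn
    rw [← hy2] at h1
    have e : (r : ℂ) - y = r * (1 - ζ) := by rw [hy2]; ring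
    rw [norm_mul, e, norm_mul, Complex.norm_real, Real.norm_of_nonneg hr0.le]
    have h2 : 0 ≤ ‖h y - b y * S y‖ * ‖1 - ζ‖ := by positivity
    calc r * ‖1 - ζ‖ * ‖h y - b y * S y‖ = r * (‖h y - b y * S y‖ * ‖1 - ζ‖) := by ring
      _ ≤ 1 * (‖h y - b y * S y‖ * ‖1 - ζ‖) := by gcongr
      _ ≤ 2 * √(2 * (1 - r)) := by rw [one_mul]; exact h1
  have hlim : ‖((1 : ℝ) - z) * (h z - b z * S z)‖ ≤ 2 * √(2 * (1 - 1)) := by
    have c1 : Tendsto (fun r : ℝ => ‖((r : ℂ) - z) * (h z - b z * S z)‖) (𝓝[<] 1)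
        (𝓝 ‖(((1 : ℝ) : ℂ) - z) * (h z - b z * S z)‖) := by
      apply ContinuousWithinAt.tendsto
      apply Continuous.continuousWithinAt
      fun_prop
    have c2 : Tendsto (fun r : ℝ => 2 * √(2 * (1 - r))) (𝓝[<] 1) (𝓝 (2 * √(2 * (1 - 1)))) := by
      apply ContinuousWithinAt.tendsto
      apply Continuous.continuousWithinAt
      fun_prop
    refine le_of_tendsto_of_tendsto c1 c2 ?_
    have : Set.Ioo ‖z‖ 1 ∈ 𝓝[<] (1 : ℝ) := Ioo_mem_nhdsLT hz'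
    filter_upwards [this] with r hr
    exact hmax r hr.1 hr.2
  rw [sub_self, mul_zero, Real.sqrt_zero, mul_zero] at hlim
  have h0 : (((1 : ℝ) : ℂ) - z) * (h z - b z * S z) = 0 := norm_le_zero_iff.mp hlim
  rcases mul_eq_zero.mp h0 with h1 | h1
  · exfalso
    rw [sub_eq_zero] at h1
    rw [← h1] at hz'
    simp at hz'
  · exact sub_eq_zero.mp h1

/-- boundary points other than `1` -/
def Tset : Set ℂ := {ζ | ‖ζ‖ = 1 ∧ ζ ≠ 1}

instance : Nonempty Tset := ⟨⟨-1, by simp [Tset]; norm_num⟩⟩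

noncomputable def zt (j : ℕ) : ℂ := (TopologicalSpace.denseSeq Tset j : ℂ)

lemma zt_norm (j : ℕ) : ‖zt j‖ = 1 := (TopologicalSpace.denseSeq Tset j).2.1
lemma zt_ne (j : ℕ) : zt j ≠ 1 := (TopologicalSpace.denseSeq Tset j).2.2

/-- the nodes -/
noncomputable def node (n : ℕ) : ℂ := ((1 - (1 / 2) ^ (n + 1) : ℝ) : ℂ) * zt (Nat.unpair n).1

lemma node_norm (n : ℕ) : ‖node n‖ = 1 - (1 / 2) ^ (n + 1) := by
  unfold node
  have : ((1 : ℝ) / 2) ^ (n + 1) ≤ 1 := pow_le_one₀ (by norm_num) (by norm_num)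
  rw [norm_mul, zt_norm, mul_one, Complex.norm_real, Real.norm_of_nonneg (by linarith)]

lemma node_mem (n : ℕ) : node n ∈ D := by
  rw [mem_D, node_norm]
  have : (0 : ℝ) < (1 / 2) ^ (n + 1) := by positivity
  linarith

lemma node_inj : Function.Injective node := by
  intro m n h
  have h1 := congrArg norm h
  rw [node_norm, node_norm] at h1
  have h2 : ((1 : ℝ) / 2) ^ (m + 1) = (1 / 2) ^ (n + 1) := by linarith
  have := pow_right_injective₀ (by norm_num : (0 : ℝ) < 1 / 2) (by norm_num) h2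
  omega

/-- along the `j`-th subsequence the nodes tend to `zt j` -/
lemma node_tendsto (j : ℕ) : Tendsto (fun m => node (Nat.pair j m)) atTop (𝓝 (zt j)) := by
  have h1 : Tendsto (fun m => Nat.pair j m) atTop atTop :=
    tendsto_atTop_mono (fun m => Nat.right_le_pair j m) tendsto_id
  have h2 : Tendsto (fun n : ℕ => (1 - (1 / 2 : ℝ) ^ (n + 1))) atTop (𝓝 (1 - 0)) := by
    refine tendsto_const_nhds.sub ?_
    exact (tendsto_pow_atTop_nhds_zero_of_lt_one (by norm_num) (by norm_num)).comp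
      (tendsto_add_atTop_nat 1)
  have h3 := (Complex.continuous_ofReal.tendsto _).comp (h2.comp h1)
  have h4 := h3.mul_const (zt j)
  rw [sub_zero, ofReal_one, one_mul] at h4
  refine h4.congr ?_
  intro m
  simp [node, Function.comp]

/-- from the nodes to all boundary points -/
theorem to_boundary (h b : ℂ → ℂ)
    (hk : ∀ z ∈ D, ∀ k, ‖h z - b z * S (node k)‖ ^ 2 * (1 - ‖z‖ ^ 2) * (1 - ‖node k‖ ^ 2) ≤
      ‖z - node k‖ ^ 2 * (1 - ‖S (node k)‖ ^ 2)) :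
    ∀ z ∈ D, ∀ ζ : ℂ, ‖ζ‖ = 1 → ζ ≠ 1 →
      ‖h z - b z * S ζ‖ ^ 2 * (1 - ‖z‖ ^ 2) ≤ 2 * ‖z - ζ‖ ^ 2 / ‖1 - ζ‖ ^ 2 := by
  intro z hz
  have step1 : ∀ k, ‖h z - b z * S (node k)‖ ^ 2 * (1 - ‖z‖ ^ 2) ≤
      2 * ‖z - node k‖ ^ 2 / ‖1 - node k‖ ^ 2 := by
    intro k
    have h1 := hk z hz k
    have hn := node_mem k
    have hn' := mem_D.mp hn
    have h2 := S_lower hn
    have h3 : 0 < 1 - ‖node k‖ ^ 2 := by nlinarith [norm_nonneg (node k)]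
    have h4 : ‖z - node k‖ ^ 2 * (1 - ‖S (node k)‖ ^ 2) ≤
        ‖z - node k‖ ^ 2 * (2 * (1 - ‖node k‖ ^ 2) / ‖1 - node k‖ ^ 2) :=
      mul_le_mul_of_nonneg_left h2 (by positivity)
    have h5 : ‖z - node k‖ ^ 2 * (2 * (1 - ‖node k‖ ^ 2) / ‖1 - node k‖ ^ 2) =
        2 * ‖z - node k‖ ^ 2 / ‖1 - node k‖ ^ 2 * (1 - ‖node k‖ ^ 2) := by ring
    rw [h5] at h4
    exact le_of_mul_le_mul_right (h1.trans h4) h3
  have step2 : ∀ j, ‖h z - b z * S (zt j)‖ ^ 2 * (1 - ‖z‖ ^ 2) ≤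
      2 * ‖z - zt j‖ ^ 2 / ‖1 - zt j‖ ^ 2 := by
    intro j
    have t := node_tendsto j
    have tS := (S_cont (zt_ne j)).tendsto.comp t
    have hne : ‖1 - zt j‖ ^ 2 ≠ 0 := by
      have : 1 - zt j ≠ 0 := sub_ne_zero.mpr (zt_ne j).symm
      positivity
    have l1 : Tendsto (fun m => ‖h z - b z * S (node (Nat.pair j m))‖ ^ 2 * (1 - ‖z‖ ^ 2)) atTop
        (𝓝 (‖h z - b z * S (zt j)‖ ^ 2 * (1 - ‖z‖ ^ 2))) :=
      (((tendsto_const_nhds.sub (tS.const_mul (b z))).norm).pow 2).mul_const _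
    have l2 : Tendsto (fun m => 2 * ‖z - node (Nat.pair j m)‖ ^ 2 /
        ‖1 - node (Nat.pair j m)‖ ^ 2) atTop (𝓝 (2 * ‖z - zt j‖ ^ 2 / ‖1 - zt j‖ ^ 2)) :=
      ((((tendsto_const_nhds.sub t).norm).pow 2).const_mul 2).div
        (((tendsto_const_nhds.sub t).norm).pow 2) hne
    exact le_of_tendsto_of_tendsto l1 l2 (Eventually.of_forall fun m => step1 _)
  -- density
  have hclosed : ∀ x : Tset, ‖h z - b z * S (x : ℂ)‖ ^ 2 * (1 - ‖z‖ ^ 2) ≤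
      2 * ‖z - (x : ℂ)‖ ^ 2 / ‖1 - (x : ℂ)‖ ^ 2 := by
    have hcS : Continuous (fun x : Tset => S (x : ℂ)) := by
      rw [continuous_iff_continuousAt]
      intro x
      exact (S_cont x.2.2).comp continuous_subtype_val.continuousAt
    have hc1 : Continuous (fun x : Tset => ‖h z - b z * S (x : ℂ)‖ ^ 2 * (1 - ‖z‖ ^ 2)) := by
      fun_prop
    have hc2 : Continuous (fun x : Tset => 2 * ‖z - (x : ℂ)‖ ^ 2 / ‖1 - (x : ℂ)‖ ^ 2) := by
      refine Continuous.div (by fun_prop) (by fun_prop) ?_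
      intro x
      have : 1 - (x : ℂ) ≠ 0 := sub_ne_zero.mpr x.2.2.symm
      positivity
    have hcl := isClosed_le hc1 hc2
    have hd : DenseRange (TopologicalSpace.denseSeq Tset) :=
      TopologicalSpace.denseRange_denseSeq Tset
    intro x
    exact hd.induction_on (p := fun x : Tset => ‖h z - b z * S (x : ℂ)‖ ^ 2 * (1 - ‖z‖ ^ 2) ≤
      2 * ‖z - (x : ℂ)‖ ^ 2 / ‖1 - (x : ℂ)‖ ^ 2) x hcl (fun j => step2 j)
  intro ζ h1 h2
  exact hclosed ⟨ζ, h1, h2⟩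

end Pool.Agent.Interp
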